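import Pool.Agent.Helper76.T3.StU

/-!
# Project T3, module E1S3: even exponent, two functions in `antiE3S k w (-ε)`
-/

set_option autoImplicit false

namespace Pool.Agent.Helper7.T3

open Pool.Agent.Helper76.T3 Pool.Agent.Helper14.T3 Pool.Agent.Helper14.W3 Pool.Agent.Helper78.W3
open Pool.Agent.Helper14.CV (Homog EqC act Tl StFar StFex ne_zero_of_det)

private lemma z1 (j : ℕ) : (3 : ZMod (3 ^ (j + 1))) ^ (j + 1) = 0 := by
  have h := ZMod.natCast_self (3 ^ (j + 1))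
  push_cast at h
  exact h

private lemma z2 (j : ℕ) : (3 : ZMod (3 ^ (j + 1))) ^ (j + 2) = 0 := by
  rw [pow_succ (3 : ZMod (3 ^ (j + 1))) (j + 1), z1, zero_mul]

/-- multiples of three are killed by `3^j` -/
private lemma hkill (j : ℕ) (n : ℤ) (hn : (3 : ℤ) ∣ n) :
    (3 : ZMod (3 ^ (j + 1))) ^ j * (n : ZMod (3 ^ (j + 1))) = 0 := by
  obtain ⟨e, rfl⟩ := hn
  push_cast
  linear_combination (e : ZMod (3 ^ (j + 1))) * z1 j

private lemma key3 : ∀ u v : ZMod 3, u * v = 1 → v - u = 0 := by decide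

private lemma dvd3 {n : ℤ} : (3 : ℤ) ∣ n ↔ (n : ZMod 3) = 0 :=
  (ZMod.intCast_zmod_eq_zero_iff_dvd n 3).symm

private lemma dvd_da {a b c d : ℤ} (h : a * d - 3 ^ (1 + 1) * b * c = 1) : (3 : ℤ) ∣ d - a := by
  rw [dvd3]
  push_cast
  apply key3
  have h' := congrArg (Int.cast : ℤ → ZMod 3) h
  push_cast at h'
  have h3 : (9 : ZMod 3) = 0 := rfl
  rw [h3] at h'
  linear_combination h'

private lemma had (j : ℕ) {a b c d : ℤ} (h : a * d - 3 ^ (1 + 1) * b * c = 1) :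
    (3 : ZMod (3 ^ (j + 1))) ^ j * (d : ZMod (3 ^ (j + 1))) =
      3 ^ j * (a : ZMod (3 ^ (j + 1))) := by
  have := hkill j (d - a) (dvd_da h)
  push_cast at this
  linear_combination this

/-- every matrix has coordinates -/
private lemma exPl (j : ℕ) {a b c d : ℤ} (h : a * d - 3 ^ (1 + 1) * b * c = 1) :
    ∃ x y : ZMod (3 ^ (j + 1)), Pl3 1 a b c d x y := by
  have ha : IsUnit (a : ZMod (3 ^ (j + 1))) := by
    rw [ZMod.coe_int_isUnit_iff_isCoprime]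
    push_cast
    exact IsCoprime.pow_left ⟨-3 * b * c, d, by linear_combination h⟩
  have hd : IsUnit (d : ZMod (3 ^ (j + 1))) := by
    rw [ZMod.coe_int_isUnit_iff_isCoprime]
    push_cast
    exact IsCoprime.pow_left ⟨-3 * b * c, a, by linear_combination h⟩
  refine ⟨b * (a : ZMod (3 ^ (j + 1)))⁻¹, c * (d : ZMod (3 ^ (j + 1)))⁻¹, h, ?_, ?_⟩
  · rw [mul_assoc, ZMod.inv_mul_of_unit _ ha, mul_one]
  · rw [mul_assoc, ZMod.inv_mul_of_unit _ hd, mul_one]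

private lemma exM (hPlA : S3PlA) (j : ℕ) (x y : ZMod (3 ^ (j + 1))) :
    ∃ a b c d : ℤ, Pl3 1 a b c d x y :=
  ⟨_, _, _, _, hPlA 1 (j + 1) (j + 1) x y⟩

private lemma nz {a b c d : ℤ} (h : a * d - 3 ^ (1 + 1) * b * c = 1) {u1 u2 : ℤ}
    (hu : u1 ≠ 0 ∨ u2 ≠ 0) : a * u1 + 3 ^ 1 * b * u2 ≠ 0 ∨ 3 * c * u1 + d * u2 ≠ 0 :=
  ne_zero_of_det (a := a) (b := 3 ^ 1 * b) (c := 3 * c) (d := d)
    (by intro h0; have : (1 : ℤ) = 0 := by linear_combination h0 - h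
        exact absurd this one_ne_zero) hu

/-- the matrix `(1 3^(j+1) i; 0 1) g` -/
private lemma plT (j : ℕ) (i : ℤ) {a b c d : ℤ} {x y : ZMod (3 ^ (j + 1))}
    (h : Pl3 1 a b c d x y) :
    Pl3 1 (a + 3 ^ (j + 2) * i * c) (b + 3 ^ j * i * d) c d
      (x + (i : ZMod (3 ^ (j + 1))) * 3 ^ j) y := by
  obtain ⟨h1, h2, h3⟩ := h
  have e := had j h1
  refine ⟨by linear_combination h1, ?_, h3⟩
  push_cast
  linear_combination h2 + (i : ZMod (3 ^ (j + 1))) * e -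
    (x + i * 3 ^ j) * (i : ZMod (3 ^ (j + 1))) * (c : ZMod (3 ^ (j + 1))) * z2 j

/-- the matrix `(1 0; 3^(j+1) i 1) g` -/
private lemma plL (j : ℕ) (i : ℤ) {a b c d : ℤ} {x y : ZMod (3 ^ (j + 1))}
    (h : Pl3 1 a b c d x y) :
    Pl3 1 a b (c + 3 ^ j * i * a) (d + 3 ^ (j + 2) * i * b) x
      (y + (i : ZMod (3 ^ (j + 1))) * 3 ^ j) := by
  obtain ⟨h1, h2, h3⟩ := h
  have e := had j h1
  refine ⟨by linear_combination h1, h2, ?_⟩
  push_cast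
  linear_combination h3 - (i : ZMod (3 ^ (j + 1))) * e -
    (y + i * 3 ^ j) * (i : ZMod (3 ^ (j + 1))) * (b : ZMod (3 ^ (j + 1))) * z2 j

/-- the matrix `g A^m`, `m = 3^j i` -/
private lemma plA (j i : ℕ) {a b c d : ℤ} {x y : ZMod (3 ^ (j + 1))} (h : Pl3 1 a b c d x y) :
    Pl3 1 a (b + ((3 ^ j * i : ℕ) : ℤ) * a) c (d + 9 * ((3 ^ j * i : ℕ) : ℤ) * c)
      (x + (i : ZMod (3 ^ (j + 1))) * 3 ^ j) y := by
  obtain ⟨h1, h2, h3⟩ := h
  refine ⟨by linear_combination h1, ?_, ?_⟩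
  · push_cast
    linear_combination h2
  · push_cast
    linear_combination h3 - y * (c : ZMod (3 ^ (j + 1))) * (i : ZMod (3 ^ (j + 1))) * z2 j

/-- the matrix `g B^m`, `m = 3^j i` -/
private lemma plB (j i : ℕ) {a b c d : ℤ} {x y : ZMod (3 ^ (j + 1))} (h : Pl3 1 a b c d x y) :
    Pl3 1 (a + 9 * ((3 ^ j * i : ℕ) : ℤ) * b) b (c + ((3 ^ j * i : ℕ) : ℤ) * d) d
      x (y + (i : ZMod (3 ^ (j + 1))) * 3 ^ j) := by
  obtain ⟨h1, h2, h3⟩ := h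
  refine ⟨by linear_combination h1, ?_, ?_⟩
  · push_cast
    linear_combination h2 - x * (b : ZMod (3 ^ (j + 1))) * (i : ZMod (3 ^ (j + 1))) * z2 j
  · push_cast
    linear_combination h3

/-- the matrix `g m` -/
private lemma plM {q : ℕ} {a b c d α β γ δ : ℤ} {x y x' y' : ZMod q} (h : Pl3 1 a b c d x y)
    (hm : α * δ - 9 * β * γ = 1)
    (hx : x' * (α + 9 * x * γ) = β + x * δ) (hy : y' * (δ + 9 * y * β) = γ + y * α) :
    Pl3 1 (a * α + 9 * b * γ) (a * β + b * δ) (c * α + d * γ) (9 * c * β + d * δ) x' y' := by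
  obtain ⟨h1, h2, h3⟩ := h
  refine ⟨by linear_combination (a * d - 9 * b * c) * hm + h1, ?_, ?_⟩
  · push_cast
    rw [h2]
    linear_combination -(a : ZMod q) * hx
  · push_cast
    rw [h3]
    linear_combination -(d : ZMod q) * hy

private lemma homm {G : ℤ → ℤ → ℂ} (h : Homog G) {p q : ℤ} (hpq : p ≠ 0 ∨ q ≠ 0) :
    G (-p) (-q) = G p q := by
  have := h (-1) p q (by norm_num) hpq
  rwa [neg_one_mul, neg_one_mul] at this

section

variable {ww ee : ℤ} {j : ℕ} {G : ℤ → ℤ → ℂ}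

/-- the value of the symbol by any matrix with the given coordinates -/
private lemma ed (hEdg : S3Edg) (hS : Sym3 (j + 2) (j + 2) G) {u1 u2 v1 v2 : ℤ}
    (hu : u1 ≠ 0 ∨ u2 ≠ 0) (hv : v1 ≠ 0 ∨ v2 ≠ 0) {a b c d : ℤ} {x y : ZMod (3 ^ (j + 1))}
    (h : Pl3 1 a b c d x y) :
    edge3 1 u1 u2 v1 v2 G x y = G (a * u1 + 3 ^ 1 * b * u2) (3 * c * u1 + d * u2) -
      G (a * v1 + 3 ^ 1 * b * v2) (3 * c * v1 + d * v2) :=
  hEdg ℂ _ 1 (j + 1) (j + 1) G hS u1 u2 v1 v2 hu hv x y a b c d h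

private lemma shx (hPlA : S3PlA) (hEdg : S3Edg) (hB : BalE3S (j + 2) ww ee G) {u1 u2 v1 v2 : ℤ}
    (hu : u1 ≠ 0 ∨ u2 ≠ 0) (hv : v1 ≠ 0 ∨ v2 ≠ 0) (x y : ZMod (3 ^ (j + 1))) :
    edge3 1 u1 u2 v1 v2 G x y + edge3 1 u1 u2 v1 v2 G (x + 3 ^ j) y +
      edge3 1 u1 u2 v1 v2 G (x + 2 * 3 ^ j) y = 0 := by
  obtain ⟨hS, hT, -, -, -⟩ := hB
  obtain ⟨a, b, c, d, h⟩ := exM hPlA j x y
  have g1 := plT j 1 h
  have g2 := plT j 2 h
  have x1 : x + ((1 : ℤ) : ZMod (3 ^ (j + 1))) * 3 ^ j = x + 3 ^ j := by push_cast; ring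
  have x2 : x + ((2 : ℤ) : ZMod (3 ^ (j + 1))) * 3 ^ j = x + 2 * 3 ^ j := by push_cast; ring
  rw [x1] at g1
  rw [x2] at g2
  rw [ed hEdg hS hu hv h, ed hEdg hS hu hv g1, ed hEdg hS hu hv g2]
  have hT' : EqC (G + act 1 (3 ^ (j + 1)) 0 1 G + act 1 (2 * 3 ^ (j + 1)) 0 1 G) 0 := hT
  have e := hT'.diff (nz h.1 hu) (nz h.1 hv)
  simp only [act, Pi.add_apply, Pi.zero_apply] at e
  have e1 : ∀ s t : ℤ, (a + 3 ^ (j + 2) * 1 * c) * s + 3 ^ 1 * (b + 3 ^ j * 1 * d) * t =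
      1 * (a * s + 3 ^ 1 * b * t) + 3 ^ (j + 1) * (3 * c * s + d * t) := by intro s t; ring
  have e2 : ∀ s t : ℤ, (a + 3 ^ (j + 2) * 2 * c) * s + 3 ^ 1 * (b + 3 ^ j * 2 * d) * t =
      1 * (a * s + 3 ^ 1 * b * t) + 2 * 3 ^ (j + 1) * (3 * c * s + d * t) := by intro s t; ring
  have e3 : ∀ s t : ℤ, 0 * (a * s + 3 ^ 1 * b * t) + 1 * (3 * c * s + d * t) = 3 * c * s + d * t := by
    intro s t; ring
  rw [e1 u1 u2, e1 v1 v2, e2 u1 u2, e2 v1 v2]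
  rw [e3 u1 u2, e3 v1 v2] at e
  linear_combination e

private lemma shy (hPlA : S3PlA) (hEdg : S3Edg) (hB : BalE3S (j + 2) ww ee G) {u1 u2 v1 v2 : ℤ}
    (hu : u1 ≠ 0 ∨ u2 ≠ 0) (hv : v1 ≠ 0 ∨ v2 ≠ 0) (x y : ZMod (3 ^ (j + 1))) :
    edge3 1 u1 u2 v1 v2 G x y + edge3 1 u1 u2 v1 v2 G x (y + 3 ^ j) +
      edge3 1 u1 u2 v1 v2 G x (y + 2 * 3 ^ j) = 0 := by
  obtain ⟨hS, -, hT, -, -⟩ := hB
  obtain ⟨a, b, c, d, h⟩ := exM hPlA j x y
  have g1 := plL j 1 h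
  have g2 := plL j 2 h
  have x1 : y + ((1 : ℤ) : ZMod (3 ^ (j + 1))) * 3 ^ j = y + 3 ^ j := by push_cast; ring
  have x2 : y + ((2 : ℤ) : ZMod (3 ^ (j + 1))) * 3 ^ j = y + 2 * 3 ^ j := by push_cast; ring
  rw [x1] at g1
  rw [x2] at g2
  rw [ed hEdg hS hu hv h, ed hEdg hS hu hv g1, ed hEdg hS hu hv g2]
  have hT' : EqC (G + act 1 0 (3 ^ (j + 1)) 1 G + act 1 0 (2 * 3 ^ (j + 1)) 1 G) 0 := hT
  have e := hT'.diff (nz h.1 hu) (nz h.1 hv)
  simp only [act, Pi.add_apply, Pi.zero_apply] at e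
  have e1 : ∀ s t : ℤ, 3 * (c + 3 ^ j * 1 * a) * s + (d + 3 ^ (j + 2) * 1 * b) * t =
      3 ^ (j + 1) * (a * s + 3 ^ 1 * b * t) + 1 * (3 * c * s + d * t) := by intro s t; ring
  have e2 : ∀ s t : ℤ, 3 * (c + 3 ^ j * 2 * a) * s + (d + 3 ^ (j + 2) * 2 * b) * t =
      2 * 3 ^ (j + 1) * (a * s + 3 ^ 1 * b * t) + 1 * (3 * c * s + d * t) := by intro s t; ring
  have e3 : ∀ s t : ℤ, 1 * (a * s + 3 ^ 1 * b * t) + 0 * (3 * c * s + d * t) =
      a * s + 3 ^ 1 * b * t := by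
    intro s t; ring
  rw [e1 u1 u2, e1 v1 v2, e2 u1 u2, e2 v1 v2]
  rw [e3 u1 u2, e3 v1 v2] at e
  linear_combination e

/-- conjugation by `S` -/
private lemma sw (hPlA : S3PlA) (hEdg : S3Edg) (hB : BalE3S (j + 2) ww ee G) {u1 u2 v1 v2 : ℤ}
    (hu : u1 ≠ 0 ∨ u2 ≠ 0) (hv : v1 ≠ 0 ∨ v2 ≠ 0) (x y : ZMod (3 ^ (j + 1))) :
    edge3 1 u1 u2 v1 v2 G (-y) (-x) = -((ww : ℂ) * edge3 1 u2 (-u1) v2 (-v1) G x y) := by
  obtain ⟨hS, -, -, hW, -⟩ := hB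
  obtain ⟨a, b, c, d, h⟩ := exM hPlA j x y
  have h' : Pl3 1 d (-c) (-b) a (-y) (-x) := by
    obtain ⟨h1, h2, h3⟩ := h
    refine ⟨by linear_combination h1, ?_, ?_⟩
    · push_cast; linear_combination -h3
    · push_cast; linear_combination -h2
  have hu' : u2 ≠ 0 ∨ -u1 ≠ 0 := by rcases hu with h | h <;> [right; left] <;> simpa using h
  have hv' : v2 ≠ 0 ∨ -v1 ≠ 0 := by rcases hv with h | h <;> [right; left] <;> simpa using h
  rw [ed hEdg hS hu' hv' h, ed hEdg hS hu hv h']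
  have e := hW.diff (nz h.1 hu') (nz h.1 hv')
  simp only [act, Pi.neg_apply, Pi.smul_apply] at e
  simp only [zsmul_eq_mul] at e
  have e1 : ∀ s t : ℤ, 0 * (a * t + 3 ^ 1 * b * -s) + -1 * (3 * c * t + d * -s) =
      d * s + 3 ^ 1 * -c * t := by intro s t; ring
  have e2 : ∀ s t : ℤ, 1 * (a * t + 3 ^ 1 * b * -s) + 0 * (3 * c * t + d * -s) =
      3 * -b * s + a * t := by intro s t; ring
  rw [e1 u1 u2, e1 v1 v2, e2 u1 u2, e2 v1 v2] at e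
  rw [e]
  ring

/-- conjugation by `*` -/
private lemma ne (hPlA : S3PlA) (hEdg : S3Edg) (hB : BalE3S (j + 2) ww ee G) {u1 u2 v1 v2 : ℤ}
    (hu : u1 ≠ 0 ∨ u2 ≠ 0) (hv : v1 ≠ 0 ∨ v2 ≠ 0) (x y : ZMod (3 ^ (j + 1))) :
    edge3 1 u1 u2 v1 v2 G (-x) (-y) = (ee : ℂ) * edge3 1 (-u1) u2 (-v1) v2 G x y := by
  obtain ⟨hS, -, -, -, hW⟩ := hB
  obtain ⟨a, b, c, d, h⟩ := exM hPlA j x y
  have h' : Pl3 1 a (-b) (-c) d (-x) (-y) := by
    obtain ⟨h1, h2, h3⟩ := h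
    refine ⟨by linear_combination h1, ?_, ?_⟩
    · push_cast; linear_combination -h2
    · push_cast; linear_combination -h3
  have hu' : -u1 ≠ 0 ∨ u2 ≠ 0 := by rcases hu with h | h <;> [left; right] <;> simpa using h
  have hv' : -v1 ≠ 0 ∨ v2 ≠ 0 := by rcases hv with h | h <;> [left; right] <;> simpa using h
  rw [ed hEdg hS hu' hv' h, ed hEdg hS hu hv h']
  have e := hW.diff (nz h.1 hu') (nz h.1 hv')
  simp only [act, Pi.smul_apply] at e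
  simp only [zsmul_eq_mul] at e
  have e1 : ∀ s t : ℤ, -1 * (a * -s + 3 ^ 1 * b * t) + 0 * (3 * c * -s + d * t) =
      a * s + 3 ^ 1 * -b * t := by intro s t; ring
  have e2 : ∀ s t : ℤ, 0 * (a * -s + 3 ^ 1 * b * t) + 1 * (3 * c * -s + d * t) =
      3 * -c * s + d * t := by intro s t; ring
  rw [e1 u1 u2, e1 v1 v2, e2 u1 u2, e2 v1 v2] at e
  rw [e]
  ring

/-- multiplication by `m` on the right -/
private lemma rm (hPlA : S3PlA) (hEdg : S3Edg) (hB : BalE3S (j + 2) ww ee G) {u1 u2 v1 v2 : ℤ}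
    (hu : u1 ≠ 0 ∨ u2 ≠ 0) (hv : v1 ≠ 0 ∨ v2 ≠ 0) {x y x' y' : ZMod (3 ^ (j + 1))}
    {α β γ δ : ℤ} (hm : α * δ - 9 * β * γ = 1)
    (hx : x' * (α + 9 * x * γ) = β + x * δ) (hy : y' * (δ + 9 * y * β) = γ + y * α) :
    edge3 1 u1 u2 v1 v2 G x' y' =
      edge3 1 (α * u1 + 3 * β * u2) (3 * γ * u1 + δ * u2) (α * v1 + 3 * β * v2)
        (3 * γ * v1 + δ * v2) G x y := by
  obtain ⟨a, b, c, d, h⟩ := exM hPlA j x y
  have h' := plM h hm hx hy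
  have hdet : α * δ - 3 * β * (3 * γ) ≠ 0 := by
    intro h0
    have : (1 : ℤ) = 0 := by linear_combination h0 - hm
    exact absurd this one_ne_zero
  have hu' := ne_zero_of_det (a := α) (b := 3 * β) (c := 3 * γ) (d := δ) hdet hu
  have hv' := ne_zero_of_det (a := α) (b := 3 * β) (c := 3 * γ) (d := δ) hdet hv
  rw [ed hEdg hB.1 hu' hv' h, ed hEdg hB.1 hu hv h']
  have e1 : ∀ s t : ℤ, (a * α + 9 * b * γ) * s + 3 ^ 1 * (a * β + b * δ) * t =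
      a * (α * s + 3 * β * t) + 3 ^ 1 * b * (3 * γ * s + δ * t) := by intro s t; ring
  have e2 : ∀ s t : ℤ, 3 * (c * α + d * γ) * s + (9 * c * β + d * δ) * t =
      3 * c * (α * s + 3 * β * t) + d * (3 * γ * s + δ * t) := by intro s t; ring
  rw [e1 u1 u2, e1 v1 v2, e2 u1 u2, e2 v1 v2]

/-- orientation -/
private lemma flip (u1 u2 v1 v2 : ℤ) (x y : ZMod (3 ^ (j + 1))) :
    edge3 1 v1 v2 u1 u2 G x y = -edge3 1 u1 u2 v1 v2 G x y := by
  unfold edge3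
  abel

/-- sign of the first vertex -/
private lemma sgn (hPlA : S3PlA) (hEdg : S3Edg) (hB : BalE3S (j + 2) ww ee G) {u1 u2 v1 v2 : ℤ}
    (hu : u1 ≠ 0 ∨ u2 ≠ 0) (hv : v1 ≠ 0 ∨ v2 ≠ 0) (x y : ZMod (3 ^ (j + 1))) :
    edge3 1 (-u1) (-u2) v1 v2 G x y = edge3 1 u1 u2 v1 v2 G x y := by
  obtain ⟨a, b, c, d, h⟩ := exM hPlA j x y
  have hu' : -u1 ≠ 0 ∨ -u2 ≠ 0 := by rcases hu with h | h <;> [left; right] <;> simpa using h
  rw [ed hEdg hB.1 hu hv h, ed hEdg hB.1 hu' hv h]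
  have e := homm hB.1.1 (nz h.1 hu)
  have e1 : a * -u1 + 3 ^ 1 * b * -u2 = -(a * u1 + 3 ^ 1 * b * u2) := by ring
  have e2 : 3 * c * -u1 + d * -u2 = -(3 * c * u1 + d * u2) := by ring
  rw [e1, e2, e]

private lemma u11 : (1 : ℤ) ≠ 0 ∨ (1 : ℤ) ≠ 0 := Or.inl one_ne_zero
private lemma um1 : (-1 : ℤ) ≠ 0 ∨ (1 : ℤ) ≠ 0 := Or.inr one_ne_zero
private lemma u21 : (2 : ℤ) ≠ 0 ∨ (1 : ℤ) ≠ 0 := Or.inr one_ne_zero
private lemma u10 : (1 : ℤ) ≠ 0 ∨ (0 : ℤ) ≠ 0 := Or.inl one_ne_zero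
private lemma u01 : (0 : ℤ) ≠ 0 ∨ (1 : ℤ) ≠ 0 := Or.inr one_ne_zero

/-- first part -/
private lemma memA (hPlA : S3PlA) (hEdg : S3Edg) (hB : BalE3S (j + 2) ww ee G) :
    (fun (x : ZMod (3 ^ (j + 1))) (y : ZMod (3 ^ (j + 1))) => edge3 1 (-1) 1 1 1 G x y) ∈
      antiE3S (j + 2) ww (-ee) := by
  intro x y
  refine ⟨shx hPlA hEdg hB um1 u11 x y, shy hPlA hEdg hB um1 u11 x y, ?_, ?_⟩
  · show edge3 1 (-1) 1 1 1 G (-y) (-x) = (ww : ℂ) * edge3 1 (-1) 1 1 1 G x y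
    have e1 := sgn hPlA hEdg hB (u1 := 1) (u2 := -1) (v1 := 1) (v2 := 1) (Or.inl one_ne_zero) u11 x y
    rw [neg_neg] at e1
    rw [sw hPlA hEdg hB um1 u11 x y, e1, neg_neg, flip (1 : ℤ) (-1) 1 1 x y]
    ring
  · show edge3 1 (-1) 1 1 1 G (-x) (-y) = ((-ee : ℤ) : ℂ) * edge3 1 (-1) 1 1 1 G x y
    rw [ne hPlA hEdg hB um1 u11 x y, neg_neg, flip (-1 : ℤ) 1 1 1 x y]
    push_cast
    ring

private lemma two_inv (j : ℕ) : (2 : ZMod (3 ^ (j + 1))) * (2 : ZMod (3 ^ (j + 1)))⁻¹ = 1 := by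
  apply ZMod.mul_inv_of_unit
  have : IsUnit (((2 : ℤ) : ZMod (3 ^ (j + 1)))) := by
    rw [ZMod.coe_int_isUnit_iff_isCoprime]
    push_cast
    exact IsCoprime.pow_left ⟨1, -1, by norm_num⟩
  simpa using this

private lemma nine_unit (j : ℕ) (y : ZMod (3 ^ (j + 1))) : IsUnit (1 + 9 * y) := by
  apply IsNilpotent.isUnit_one_add
  refine ⟨j + 1, ?_⟩
  have : (9 * y) ^ (j + 1) = (3 : ZMod (3 ^ (j + 1))) ^ (j + 1) * (3 * y) ^ (j + 1) := by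
    rw [← mul_pow]; ring
  rw [this, z1, zero_mul]

private lemma inv_p (j : ℕ) (y : ZMod (3 ^ (j + 1))) : (1 + 9 * y) * (1 + 9 * y)⁻¹ = 1 :=
  ZMod.mul_inv_of_unit _ (nine_unit j y)

private lemma inv_m (j : ℕ) (y : ZMod (3 ^ (j + 1))) : (1 - 9 * y) * (1 - 9 * y)⁻¹ = 1 := by
  apply ZMod.mul_inv_of_unit
  have := nine_unit j (-y)
  have e : 1 + 9 * -y = 1 - 9 * y := by ring
  rwa [e] at this

/-- second function -/
private noncomputable def ka (G : ℤ → ℤ → ℂ) (x y : ZMod (3 ^ (j + 1))) : ℂ :=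
  edge3 1 2 1 1 1 G ((x - 1) * (2 : ZMod (3 ^ (j + 1)))⁻¹) (2 * y * (1 - 9 * y)⁻¹)

private lemma ka_x (hPlA : S3PlA) (hEdg : S3Edg) (hB : BalE3S (j + 2) ww ee G)
    (x y : ZMod (3 ^ (j + 1))) :
    ka G x y + ka G (x + 3 ^ j) y + ka G (x + 2 * 3 ^ j) y = 0 := by
  have h := shx hPlA hEdg hB u21 u11 ((x - 1) * (2 : ZMod (3 ^ (j + 1)))⁻¹)
    (2 * y * (1 - 9 * y)⁻¹)
  have h2 := two_inv j
  have h3 := z1 j
  unfold ka
  generalize (2 : ZMod (3 ^ (j + 1)))⁻¹ = t at h h2 ⊢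
  have e1 : (x + 3 ^ j - 1) * t = (x - 1) * t + 2 * 3 ^ j := by
    linear_combination 2 * 3 ^ j * h2 - t * h3
  have e2 : (x + 2 * 3 ^ j - 1) * t = (x - 1) * t + 3 ^ j := by
    linear_combination 3 ^ j * h2
  rw [e1, e2]
  linear_combination h

private lemma ka_y (hPlA : S3PlA) (hEdg : S3Edg) (hB : BalE3S (j + 2) ww ee G)
    (x y : ZMod (3 ^ (j + 1))) :
    ka G x y + ka G x (y + 3 ^ j) + ka G x (y + 2 * 3 ^ j) = 0 := by
  have h := shy hPlA hEdg hB u21 u11 ((x - 1) * (2 : ZMod (3 ^ (j + 1)))⁻¹)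
    (2 * y * (1 - 9 * y)⁻¹)
  have h3 := z2 j
  have hi := inv_m j y
  have m1 : 1 - 9 * (y + 3 ^ j) = 1 - 9 * y := by linear_combination -h3
  have m2 : 1 - 9 * (y + 2 * 3 ^ j) = 1 - 9 * y := by linear_combination -2 * h3
  unfold ka
  rw [m1, m2]
  generalize (1 - 9 * y)⁻¹ = t at h hi ⊢
  have e0 : (3 : ZMod (3 ^ (j + 1))) ^ j * t = 3 ^ j := by
    linear_combination 3 ^ j * hi + y * t * h3
  have e1 : 2 * (y + 3 ^ j) * t = 2 * y * t + 2 * 3 ^ j := by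
    linear_combination 2 * e0
  have e2 : 2 * (y + 2 * 3 ^ j) * t = 2 * y * t + 3 ^ j := by
    linear_combination 4 * e0 + z1 j
  rw [e1, e2]
  linear_combination h

private lemma ka_ne (hPlA : S3PlA) (hEdg : S3Edg) (hB : BalE3S (j + 2) ww ee G)
    (x y : ZMod (3 ^ (j + 1))) : ka G (-x) (-y) = -((ee : ℂ) * ka G x y) := by
  have h2 := two_inv j
  have hw := inv_m j y
  have hw' := inv_m j (-y)
  unfold ka
  generalize (2 : ZMod (3 ^ (j + 1)))⁻¹ = t at h2 ⊢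
  generalize (1 - 9 * y)⁻¹ = w at hw ⊢
  generalize (1 - 9 * -y)⁻¹ = w' at hw' ⊢
  have a1 : (-x - 1) * t = -((x + 1) * t) := by ring
  have a2 : 2 * -y * w' = -(2 * y * w') := by ring
  rw [a1, a2, ne hPlA hEdg hB u21 u11]
  have r := rm hPlA hEdg hB (u1 := -2) (u2 := 1) (v1 := -1) (v2 := 1) (Or.inr one_ne_zero)
    (Or.inr one_ne_zero) (x := (x - 1) * t) (y := 2 * y * w) (x' := (x + 1) * t)
    (y' := 2 * y * w') (α := 1) (β := 1) (γ := 0) (δ := 1) (by norm_num)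
    (by push_cast; linear_combination h2)
    (by push_cast; linear_combination (-2 * y * w') * hw + (2 * y * w) * hw')
  have r' := r.trans (by norm_num : _ = edge3 1 1 1 2 1 G ((x - 1) * t) (2 * y * w))
  rw [r', flip (2 : ℤ) 1 1 1 ((x - 1) * t) (2 * y * w)]
  ring

private lemma ka_sw (hPlA : S3PlA) (hEdg : S3Edg) (hB : BalE3S (j + 2) ww ee G)
    (x y : ZMod (3 ^ (j + 1))) : ka G (-y) (-x) = (ww : ℂ) * ka G x y := by
  have h2 := two_inv j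
  have hy := inv_m j y
  have hw := inv_m j (-x)
  unfold ka
  generalize (2 : ZMod (3 ^ (j + 1)))⁻¹ = t at h2 ⊢
  generalize (1 - 9 * y)⁻¹ = wy at hy ⊢
  generalize (1 - 9 * -x)⁻¹ = w at hw ⊢
  have a1 : (-y - 1) * t = -((y + 1) * t) := by ring
  have a2 : 2 * -x * w = -(2 * x * w) := by ring
  rw [a1, a2, sw hPlA hEdg hB u21 u11]
  have r := rm hPlA hEdg hB (u1 := 2) (u2 := 1) (v1 := 1) (v2 := 1) u21 u11
    (x := 2 * x * w) (y := (y + 1) * t) (x' := (x - 1) * t)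
    (y' := 2 * y * wy) (α := -2) (β := 1) (γ := 1) (δ := -5) (by norm_num)
    (by push_cast; linear_combination (-(x - 1) * (1 - 9 * x * w)) * h2 + x * hw)
    (by push_cast; linear_combination (9 * y * wy * (y + 1) + (y + 1)) * h2 - y * hy)
  rw [r]
  have s := sgn hPlA hEdg hB (u1 := 1) (u2 := -1) (v1 := 1) (v2 := -2) (Or.inl one_ne_zero)
    (Or.inl one_ne_zero) (2 * x * w) ((y + 1) * t)
  norm_num at s ⊢
  rw [s, flip (1 : ℤ) (-1) 1 (-2) (2 * x * w) ((y + 1) * t)]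
  ring

private lemma memB (hPlA : S3PlA) (hEdg : S3Edg) (hB : BalE3S (j + 2) ww ee G) :
    (fun (x : ZMod (3 ^ (j + 1))) (y : ZMod (3 ^ (j + 1))) => ka G x y) ∈
      antiE3S (j + 2) ww (-ee) := by
  intro x y
  refine ⟨ka_x hPlA hEdg hB x y, ka_y hPlA hEdg hB x y, ka_sw hPlA hEdg hB x y, ?_⟩
  show ka G (-x) (-y) = ((-ee : ℤ) : ℂ) * ka G x y
  rw [ka_ne hPlA hEdg hB x y]
  push_cast
  ring

/-- `κ` vanishes at all points -/
private lemma ka_zero (hz : ∀ (x : ZMod (3 ^ (j + 1))) (y : ZMod (3 ^ (j + 1))), ka G x y = 0)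
    (x y : ZMod (3 ^ (j + 1))) : edge3 1 2 1 1 1 G x y = 0 := by
  have h2 := two_inv j
  have hu : IsUnit (2 + 9 * y) := by
    have h := (nine_unit j (y * (2 : ZMod (3 ^ (j + 1)))⁻¹))
    have h' : IsUnit (2 : ZMod (3 ^ (j + 1))) := IsUnit.of_mul_eq_one _ h2
    have e : 2 + 9 * y = 2 * (1 + 9 * (y * (2 : ZMod (3 ^ (j + 1)))⁻¹)) := by
      linear_combination (-9 * y) * h2
    rw [e]
    exact h'.mul h
  have hv := ZMod.mul_inv_of_unit _ hu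
  have h := hz (2 * x + 1) (y * (2 + 9 * y)⁻¹)
  have hw := inv_m j (y * (2 + 9 * y)⁻¹)
  unfold ka at h
  generalize (2 : ZMod (3 ^ (j + 1)))⁻¹ = t at h2 h
  generalize (2 + 9 * y)⁻¹ = s at hv h hw
  generalize (1 - 9 * (y * s))⁻¹ = w at h hw
  have e1 : (2 * x + 1 - 1) * t = x := by linear_combination x * h2
  have e2 : 2 * (y * s) * w = y := by
    linear_combination y * hw + y * w * hv
  rwa [e1, e2] at h

/-- `h = 0` for all matrices -/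
private lemma h0 (hEdg : S3Edg) (hB : BalE3S (j + 2) ww ee G)
    (hz : ∀ (x : ZMod (3 ^ (j + 1))) (y : ZMod (3 ^ (j + 1))), edge3 1 (-1) 1 1 1 G x y = 0)
    {a b c d : ℤ} (h : a * d - 3 ^ (1 + 1) * b * c = 1) :
    G (-a + 3 * b) (-3 * c + d) = G (a + 3 * b) (3 * c + d) := by
  obtain ⟨x, y, hp⟩ := exPl j h
  have e := ed hEdg hB.1 um1 u11 hp
  rw [hz x y] at e
  have e1 : G (a * 1 + 3 ^ 1 * b * 1) (3 * c * 1 + d * 1) = G (a + 3 * b) (3 * c + d) := by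
    congr 1 <;> ring
  have e2 : G (a * -1 + 3 ^ 1 * b * 1) (3 * c * -1 + d * 1) = G (-a + 3 * b) (-3 * c + d) := by
    congr 1 <;> ring
  rw [e1, e2] at e
  exact (sub_eq_zero.1 e.symm)

/-- `κ = 0` for all matrices -/
private lemma k0 (hEdg : S3Edg) (hB : BalE3S (j + 2) ww ee G)
    (hz : ∀ (x : ZMod (3 ^ (j + 1))) (y : ZMod (3 ^ (j + 1))), edge3 1 2 1 1 1 G x y = 0)
    {a b c d : ℤ} (h : a * d - 3 ^ (1 + 1) * b * c = 1) :
    G (2 * a + 3 * b) (6 * c + d) = G (a + 3 * b) (3 * c + d) := by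
  obtain ⟨x, y, hp⟩ := exPl j h
  have e := ed hEdg hB.1 u21 u11 hp
  rw [hz x y] at e
  have e1 : G (a * 1 + 3 ^ 1 * b * 1) (3 * c * 1 + d * 1) = G (a + 3 * b) (3 * c + d) := by
    congr 1 <;> ring
  have e2 : G (a * 2 + 3 ^ 1 * b * 1) (3 * c * 2 + d * 1) = G (2 * a + 3 * b) (6 * c + d) := by
    congr 1 <;> ring
  rw [e1, e2] at e
  exact (sub_eq_zero.1 e.symm)

/-- the same for the vertices `1/2` and `1` -/
private lemma k1 (hEdg : S3Edg) (hB : BalE3S (j + 2) ww ee G)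
    (hz : ∀ (x : ZMod (3 ^ (j + 1))) (y : ZMod (3 ^ (j + 1))), edge3 1 2 1 1 1 G x y = 0)
    {a b c d : ℤ} (h : a * d - 3 ^ (1 + 1) * b * c = 1) :
    G (a + 6 * b) (3 * c + 2 * d) = G (a + 3 * b) (3 * c + d) := by
  have h' : (-2 * a - 9 * b) * (9 * c + 4 * d) - 3 ^ (1 + 1) * (a + 4 * b) * (-2 * c - d) = 1 := by
    linear_combination h
  have e := k0 hEdg hB hz h'
  have hd : a * d - (3 * b) * (3 * c) ≠ 0 := by
    intro h0
    have : (1 : ℤ) = 0 := by linear_combination h0 - h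
    exact absurd this one_ne_zero
  have n := ne_zero_of_det hd (p := 1) (q := 2) (Or.inl one_ne_zero)
  have m := homm hB.1.1 n
  have e1 : G (-(a * 1 + 3 * b * 2)) (-(3 * c * 1 + d * 2)) =
      G (2 * (-2 * a - 9 * b) + 3 * (a + 4 * b)) (6 * (-2 * c - d) + (9 * c + 4 * d)) := by
    congr 1 <;> ring
  have e2 : G (a * 1 + 3 * b * 2) (3 * c * 1 + d * 2) = G (a + 6 * b) (3 * c + 2 * d) := by
    congr 1 <;> ring
  have e3 : G (-2 * a - 9 * b + 3 * (a + 4 * b)) (3 * (-2 * c - d) + (9 * c + 4 * d)) =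
      G (a + 3 * b) (3 * c + d) := by
    congr 1 <;> ring
  rw [← e2, ← m, e1, e, e3]

private lemma iterA (hEdg : S3Edg) (hB : BalE3S (j + 2) ww ee G)
    (hh : ∀ (x : ZMod (3 ^ (j + 1))) (y : ZMod (3 ^ (j + 1))), edge3 1 (-1) 1 1 1 G x y = 0)
    (hz : ∀ (x : ZMod (3 ^ (j + 1))) (y : ZMod (3 ^ (j + 1))), edge3 1 2 1 1 1 G x y = 0)
    {a b c d : ℤ} (h : a * d - 3 ^ (1 + 1) * b * c = 1) (m : ℕ) :
    G (-a + 3 * (b + m * a)) (-3 * c + (d + 9 * m * c)) = G (-a + 3 * b) (-3 * c + d) := by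
  induction m with
  | zero => congr 1 <;> push_cast <;> ring
  | succ m ih =>
    rw [← ih]
    have h' : a * (d + 9 * (m : ℤ) * c) - 3 ^ (1 + 1) * (b + (m : ℤ) * a) * c = 1 := by
      linear_combination h
    rw [h0 hEdg hB hh h', ← k0 hEdg hB hz h']
    congr 1 <;> push_cast <;> ring

private lemma iterB (hEdg : S3Edg) (hB : BalE3S (j + 2) ww ee G)
    (hh : ∀ (x : ZMod (3 ^ (j + 1))) (y : ZMod (3 ^ (j + 1))), edge3 1 (-1) 1 1 1 G x y = 0)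
    (hz : ∀ (x : ZMod (3 ^ (j + 1))) (y : ZMod (3 ^ (j + 1))), edge3 1 2 1 1 1 G x y = 0)
    {a b c d : ℤ} (h : a * d - 3 ^ (1 + 1) * b * c = 1) (m : ℕ) :
    G (-(a + 9 * m * b) + 3 * b) (-3 * (c + m * d) + d) = G (-a + 3 * b) (-3 * c + d) := by
  induction m with
  | zero => congr 1 <;> push_cast <;> ring
  | succ m ih =>
    rw [← ih]
    have h' : (a + 9 * (m : ℤ) * b) * d - 3 ^ (1 + 1) * b * (c + (m : ℤ) * d) = 1 := by
      linear_combination h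
    rw [h0 hEdg hB hh h', ← k1 hEdg hB hz h']
    have hd : (a + 9 * (m : ℤ) * b) * d - (3 * b) * (3 * (c + (m : ℤ) * d)) ≠ 0 := by
      intro h0
      have : (1 : ℤ) = 0 := by linear_combination h0 - h'
      exact absurd this one_ne_zero
    have n := ne_zero_of_det hd (p := 1) (q := 2) (Or.inl one_ne_zero)
    have e := homm hB.1.1 n
    have e1 : G ((a + 9 * (m : ℤ) * b) + 6 * b) (3 * (c + (m : ℤ) * d) + 2 * d) =
        G ((a + 9 * (m : ℤ) * b) * 1 + 3 * b * 2) (3 * (c + (m : ℤ) * d) * 1 + d * 2) := by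
      congr 1 <;> ring
    rw [e1, ← e]
    congr 1 <;> push_cast <;> ring

/-- `G(g ∞) = G(g (-1))` -/
private lemma h1 (hPlA : S3PlA) (hEdg : S3Edg) (hB : BalE3S (j + 2) ww ee G)
    (hh : ∀ (x : ZMod (3 ^ (j + 1))) (y : ZMod (3 ^ (j + 1))), edge3 1 (-1) 1 1 1 G x y = 0)
    (hz : ∀ (x : ZMod (3 ^ (j + 1))) (y : ZMod (3 ^ (j + 1))), edge3 1 2 1 1 1 G x y = 0)
    {a b c d : ℤ} (h : a * d - 3 ^ (1 + 1) * b * c = 1) :
    G a (3 * c) = G (-a + 3 * b) (-3 * c + d) := by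
  obtain ⟨x, y, hp⟩ := exPl j h
  have s := shx hPlA hEdg hB u10 um1 x y
  have e0 := ed hEdg hB.1 u10 um1 hp
  have e1 := ed hEdg hB.1 u10 um1 (plA j 1 hp)
  have e2 := ed hEdg hB.1 u10 um1 (plA j 2 hp)
  have x1 : x + ((1 : ℕ) : ZMod (3 ^ (j + 1))) * 3 ^ j = x + 3 ^ j := by push_cast; ring
  have x2 : x + ((2 : ℕ) : ZMod (3 ^ (j + 1))) * 3 ^ j = x + 2 * 3 ^ j := by push_cast; ring
  rw [x1] at e1
  rw [x2] at e2
  have f : ∀ i : ℕ, G (a * 1 + 3 ^ 1 * (b + (i : ℤ) * a) * 0)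
      (3 * c * 1 + (d + 9 * (i : ℤ) * c) * 0) -
      G (a * -1 + 3 ^ 1 * (b + (i : ℤ) * a) * 1) (3 * c * -1 + (d + 9 * (i : ℤ) * c) * 1) =
      G a (3 * c) - G (-a + 3 * b) (-3 * c + d) := by
    intro i
    rw [← iterA hEdg hB hh hz h i]
    congr 1 <;> congr 1 <;> ring
  have f0 : G (a * 1 + 3 ^ 1 * b * 0) (3 * c * 1 + d * 0) -
      G (a * -1 + 3 ^ 1 * b * 1) (3 * c * -1 + d * 1) =
      G a (3 * c) - G (-a + 3 * b) (-3 * c + d) := by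
    congr 1 <;> congr 1 <;> ring
  rw [f] at e1 e2
  rw [f0] at e0
  rw [e0, e1, e2] at s
  have : (3 : ℂ) * (G a (3 * c) - G (-a + 3 * b) (-3 * c + d)) = 0 := by linear_combination s
  rcases mul_eq_zero.1 this with h2 | h2
  · exact absurd h2 three_ne_zero
  · exact sub_eq_zero.1 h2

/-- `G(g 0) = G(g (-1))` -/
private lemma h2 (hPlA : S3PlA) (hEdg : S3Edg) (hB : BalE3S (j + 2) ww ee G)
    (hh : ∀ (x : ZMod (3 ^ (j + 1))) (y : ZMod (3 ^ (j + 1))), edge3 1 (-1) 1 1 1 G x y = 0)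
    (hz : ∀ (x : ZMod (3 ^ (j + 1))) (y : ZMod (3 ^ (j + 1))), edge3 1 2 1 1 1 G x y = 0)
    {a b c d : ℤ} (h : a * d - 3 ^ (1 + 1) * b * c = 1) :
    G (3 * b) d = G (-a + 3 * b) (-3 * c + d) := by
  obtain ⟨x, y, hp⟩ := exPl j h
  have s := shy hPlA hEdg hB u01 um1 x y
  have e0 := ed hEdg hB.1 u01 um1 hp
  have e1 := ed hEdg hB.1 u01 um1 (plB j 1 hp)
  have e2 := ed hEdg hB.1 u01 um1 (plB j 2 hp)
  have x1 : y + ((1 : ℕ) : ZMod (3 ^ (j + 1))) * 3 ^ j = y + 3 ^ j := by push_cast; ring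
  have x2 : y + ((2 : ℕ) : ZMod (3 ^ (j + 1))) * 3 ^ j = y + 2 * 3 ^ j := by push_cast; ring
  rw [x1] at e1
  rw [x2] at e2
  have f : ∀ i : ℕ, G ((a + 9 * (i : ℤ) * b) * 0 + 3 ^ 1 * b * 1)
      (3 * (c + (i : ℤ) * d) * 0 + d * 1) -
      G ((a + 9 * (i : ℤ) * b) * -1 + 3 ^ 1 * b * 1) (3 * (c + (i : ℤ) * d) * -1 + d * 1) =
      G (3 * b) d - G (-a + 3 * b) (-3 * c + d) := by
    intro i
    rw [← iterB hEdg hB hh hz h i]
    congr 1 <;> congr 1 <;> ring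
  have f0 : G (a * 0 + 3 ^ 1 * b * 1) (3 * c * 0 + d * 1) -
      G (a * -1 + 3 ^ 1 * b * 1) (3 * c * -1 + d * 1) =
      G (3 * b) d - G (-a + 3 * b) (-3 * c + d) := by
    congr 1 <;> congr 1 <;> ring
  rw [f] at e1 e2
  rw [f0] at e0
  rw [e0, e1, e2] at s
  have : (3 : ℂ) * (G (3 * b) d - G (-a + 3 * b) (-3 * c + d)) = 0 := by linear_combination s
  rcases mul_eq_zero.1 this with h2 | h2
  · exact absurd h2 three_ne_zero
  · exact sub_eq_zero.1 h2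

private lemma cls1 : ∀ p q r s : ZMod 3, p * s - q * r = 1 → r = 0 →
    q = 0 ∨ q - p = 0 ∨ q + p = 0 := by decide

private lemma cls2 : ∀ p q r s : ZMod 3, p * s - q * r = 1 → q = 0 →
    r = 0 ∨ r - s = 0 ∨ r + s = 0 := by decide

private lemma cls3 : ∀ p q r s : ZMod 3, p * s - q * r = 1 →
    (r = 0 ∨ q = 0 ∨ (p + q = 0 ∧ r - s = 0)) ∨
      (s = 0 ∨ p = 0 ∨ (q - p = 0 ∧ s + r = 0)) := by decide

private lemma det3 {p q r s : ℤ} (h : p * s - q * r = 1) :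
    (p : ZMod 3) * s - q * r = 1 := by
  have h' := congrArg (Int.cast : ℤ → ZMod 3) h
  push_cast at h'
  exact h'

private lemma edge1 (hPlA : S3PlA) (hEdg : S3Edg) (hB : BalE3S (j + 2) ww ee G)
    (hh : ∀ (x : ZMod (3 ^ (j + 1))) (y : ZMod (3 ^ (j + 1))), edge3 1 (-1) 1 1 1 G x y = 0)
    (hz : ∀ (x : ZMod (3 ^ (j + 1))) (y : ZMod (3 ^ (j + 1))), edge3 1 2 1 1 1 G x y = 0)
    (p q r s : ℤ) (h : p * s - q * r = 1)
    (hc : (3 : ℤ) ∣ r ∨ (3 : ℤ) ∣ q ∨ ((3 : ℤ) ∣ p + q ∧ (3 : ℤ) ∣ r - s)) : G p r = G q s := by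
  have hcase : ∀ a b c d : ℤ, a * d - 3 ^ (1 + 1) * b * c = 1 →
      G a (3 * c) = G (-a + 3 * b) (-3 * c + d) ∧ G (3 * b) d = G (-a + 3 * b) (-3 * c + d) ∧
      G (a + 3 * b) (3 * c + d) = G (-a + 3 * b) (-3 * c + d) := fun a b c d hd =>
    ⟨h1 hPlA hEdg hB hh hz hd, h2 hPlA hEdg hB hh hz hd, (h0 hEdg hB hh hd).symm⟩
  rcases hc with hr | hq | ⟨e1, e2⟩
  · rcases cls1 _ _ _ _ (det3 h) (dvd3.1 hr) with hq | hq | hq
    · obtain ⟨c, rfl⟩ := hr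
      obtain ⟨b, rfl⟩ := dvd3.2 hq
      obtain ⟨f1, f2, f3⟩ := hcase p b c s (by linear_combination h)
      rw [f1, f2]
    · obtain ⟨c, rfl⟩ := hr
      have : (3 : ℤ) ∣ q - p := dvd3.2 (by push_cast; exact hq)
      obtain ⟨b, hb⟩ := this
      obtain ⟨f1, f2, f3⟩ := hcase p b c (s - 3 * c) (by linear_combination h + 3 * c * hb)
      rw [f1, ← f3]
      congr 1
      · linear_combination -hb
      · ring
    · obtain ⟨c, rfl⟩ := hr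
      have : (3 : ℤ) ∣ q + p := dvd3.2 (by push_cast; exact hq)
      obtain ⟨b, hb⟩ := this
      obtain ⟨f1, f2, f3⟩ := hcase p b c (s + 3 * c) (by linear_combination h + 3 * c * hb)
      rw [f1]
      congr 1
      · linear_combination -hb
      · ring
  · rcases cls2 _ _ _ _ (det3 h) (dvd3.1 hq) with hr | hr | hr
    · obtain ⟨b, rfl⟩ := hq
      obtain ⟨c, rfl⟩ := dvd3.2 hr
      obtain ⟨f1, f2, f3⟩ := hcase p b c s (by linear_combination h)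
      rw [f1, f2]
    · obtain ⟨b, rfl⟩ := hq
      have : (3 : ℤ) ∣ r - s := dvd3.2 (by push_cast; exact hr)
      obtain ⟨c, hc⟩ := this
      obtain ⟨f1, f2, f3⟩ := hcase (p - 3 * b) b c s (by linear_combination h + 3 * b * hc)
      rw [f2, ← f3]
      congr 1
      · ring
      · linear_combination hc
    · obtain ⟨b, rfl⟩ := hq
      have : (3 : ℤ) ∣ r + s := dvd3.2 (by push_cast; exact hr)
      obtain ⟨c, hc⟩ := this
      obtain ⟨f1, f2, f3⟩ := hcase (p + 3 * b) b c s (by linear_combination h + 3 * b * hc)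
      have n : p ≠ 0 ∨ r ≠ 0 := by
        by_contra hcon
        push Not at hcon
        rw [hcon.1, hcon.2] at h
        simp at h
      rw [f2, ← homm hB.1.1 n]
      congr 1
      · ring
      · linear_combination -hc
  · obtain ⟨b, hb⟩ := e1
    obtain ⟨c, hc⟩ := e2
    have hd : (p - q) * (2 * s - r) - 3 ^ (1 + 1) * (q - b) * c = 1 := by
      linear_combination h + (2 * q - p) * hc - 3 * c * hb
    have f := k0 hEdg hB hz hd
    have g1 : 2 * (p - q) + 3 * (q - b) = p := by linear_combination hb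
    have g2 : 6 * c + (2 * s - r) = r := by linear_combination -2 * hc
    have g3 : (p - q) + 3 * (q - b) = q := by linear_combination hb
    have g4 : 3 * c + (2 * s - r) = s := by linear_combination -hc
    rw [g1, g2, g3, g4] at f
    exact f

private lemma edge2 (hPlA : S3PlA) (hEdg : S3Edg) (hB : BalE3S (j + 2) ww ee G)
    (hh : ∀ (x : ZMod (3 ^ (j + 1))) (y : ZMod (3 ^ (j + 1))), edge3 1 (-1) 1 1 1 G x y = 0)
    (hz : ∀ (x : ZMod (3 ^ (j + 1))) (y : ZMod (3 ^ (j + 1))), edge3 1 2 1 1 1 G x y = 0)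
    (p q r s : ℤ) (h : p * s - q * r = 1) : G p r = G q s := by
  rcases cls3 _ _ _ _ (det3 h) with hc | hc
  · apply edge1 hPlA hEdg hB hh hz p q r s h
    rcases hc with hc | hc | ⟨hc, hc'⟩
    · exact Or.inl (dvd3.2 hc)
    · exact Or.inr (Or.inl (dvd3.2 hc))
    · exact Or.inr (Or.inr ⟨dvd3.2 (by push_cast; exact hc), dvd3.2 (by push_cast; exact hc')⟩)
  · have n : p ≠ 0 ∨ r ≠ 0 := by
      by_contra hcon
      push Not at hcon
      rw [hcon.1, hcon.2] at h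
      simp at h
    have h' : q * (-r) - (-p) * s = 1 := by linear_combination h
    have := edge1 hPlA hEdg hB hh hz q (-p) s (-r) h' (by
      rcases hc with hc | hc | ⟨hc, hc'⟩
      · exact Or.inl (dvd3.2 hc)
      · exact Or.inr (Or.inl (dvd3.2 (by push_cast; rw [hc, neg_zero])))
      · exact Or.inr (Or.inr ⟨dvd3.2 (by push_cast; linear_combination hc),
          dvd3.2 (by push_cast; linear_combination hc')⟩))
    rw [this, homm hB.1.1 n]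

end

/-- Module E1S3. -/
theorem hE1S3 (hEdg : S3Edg) (hPlA : S3PlA) (hFar : StFar) : E1S3 := by
  intro ww ee k G _ _ hk hB
  obtain ⟨j, rfl⟩ : ∃ j, k = j + 2 := ⟨k - 2, by omega⟩
  refine ⟨memA hPlA hEdg hB, memB hPlA hEdg hB, fun hh hz => ?_⟩
  exact hFar ℂ _ G hB.1.1 fun a b c d h => edge2 hPlA hEdg hB hh (ka_zero hz) a b c d h

end Pool.Agent.Helper7.T3
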